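import Mathlib
import Pool.Agent.MP_f56020_al.L2.Quo

namespace Pool.Agent.Results.MP_f56020_al.LinearTwo

/-- The elements of `G` can be listed, each exactly once, so that the products of the non-empty
initial segments of the list are pairwise distinct. -/
def Sequenceable (G : Type*) [Group G] : Prop :=
  ∃ l : List G, l.Nodup ∧ (∀ g : G, g ∈ l) ∧
    ∀ i j : ℕ, i < j → j < l.length → (l.take (i + 1)).prod ≠ (l.take (j + 1)).prod

/-- The quotient of `SL(2, q)` by any central subgroup is sequenceable, for every prime power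
`q ≥ 7`. -/
theorem result (F : Type*) [Field F] [Finite F] (h : 7 ≤ Nat.card F)
    (Z : Subgroup (Matrix.SpecialLinearGroup (Fin 2) F)) [Z.Normal]
    (hZ : Z ≤ Subgroup.center (Matrix.SpecialLinearGroup (Fin 2) F)) :
    Sequenceable (Matrix.SpecialLinearGroup (Fin 2) F ⧸ Z) := by
  obtain ⟨ε, hε⟩ := Pool.Agent.SQL.qt_of Z hZ
  exact Pool.Agent.SQ2.SG.list (Pool.Agent.SQL.core hε h)

end Pool.Agent.Results.MP_f56020_al.LinearTwo
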