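import Mathlib
import Pool.Agent.MP_f56020_al.O1.Top

namespace Pool.Agent.Results.MP_f56020_al.OddLift

/-- The elements of `G` can be listed, each exactly once, so that the products of the non-empty
initial segments of the list are pairwise distinct. -/
def Sequenceable (G : Type*) [Group G] : Prop :=
  ∃ l : List G, l.Nodup ∧ (∀ g : G, g ∈ l) ∧
    ∀ i j : ℕ, i < j → j < l.length → (l.take (i + 1)).prod ≠ (l.take (j + 1)).prod

/-- Let `G` be a finite group of order divisible by four and `N` a solvable normal subgroup of
odd order. If `G / N` is sequenceable, then so is `G`. -/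
theorem result (G : Type*) [Group G] [Finite G] (h4 : 4 ∣ Nat.card G)
    (N : Subgroup G) [N.Normal] [Group.IsSolvable N] (ho : Odd (Nat.card N))
    (h : Sequenceable (G ⧸ N)) : Sequenceable G := by
  obtain ⟨l, h1, h2, h3⟩ := h
  exact Pool.Agent.SQO.to_list (Pool.Agent.SQO.lift N ho h4 (Pool.Agent.SQO.of_list h1 h2 h3))

end Pool.Agent.Results.MP_f56020_al.OddLift
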