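import Mathlib
import Pool.Agent.MP_f56020_al.s2.All
import Pool.Agent.MP_f56020_al.s2.Conv

/-- A finite solvable non-abelian group is sequenceable (its elements can be listed, each exactly
once, so that the products of the non-empty initial segments of the list are pairwise distinct)
if and only if its order is neither six nor eight. -/
theorem Pool.Agent.Results.MP_f56020_al.Solvable.result (G : Type*) [Group G] [Finite G]
    [Group.IsSolvable G] (hna : ∃ a b : G, a * b ≠ b * a) :
    (∃ l : List G, l.Nodup ∧ (∀ g : G, g ∈ l) ∧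
      ∀ i j : ℕ, i < j → j < l.length → (l.take (i + 1)).prod ≠ (l.take (j + 1)).prod) ↔
    (Nat.card G ≠ 6 ∧ Nat.card G ≠ 8) := by
  have hc : ¬ Pool.Agent.SQ.Cm G := fun h => by
    obtain ⟨a, b, hab⟩ := hna
    exact hab (h a b)
  exact ⟨fun h => ⟨fun e => Pool.Agent.SQ2.not_seq G (Or.inl e) hc h,
    fun e => Pool.Agent.SQ2.not_seq G (Or.inr e) hc h⟩,
    fun h => Pool.Agent.SQ2.SG.list (Pool.Agent.SQ2.seq_all G hc h.1 h.2)⟩
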