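import Mathlib
import Pool.Agent.MP_f56020_al.SA.Top

namespace Pool.Agent.Results.MP_f56020_al.SymAlt

/-- The elements of `G` can be listed, each exactly once, so that the products of the non-empty
initial segments of the list are pairwise distinct. -/
def Sequenceable (G : Type*) [Group G] : Prop :=
  ∃ l : List G, l.Nodup ∧ (∀ g : G, g ∈ l) ∧
    ∀ i j : ℕ, i < j → j < l.length → (l.take (i + 1)).prod ≠ (l.take (j + 1)).prod

/-- On a finite set with at least four points, every permutation group that contains the
alternating group (so the alternating group and the symmetric group) is sequenceable. -/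
theorem result (α : Type*) [Fintype α] [DecidableEq α] (h : 4 ≤ Fintype.card α)
    (G : Subgroup (Equiv.Perm α)) (hG : alternatingGroup α ≤ G) : Sequenceable G :=
  Pool.Agent.SQ2.SG.list (Pool.Agent.SQA.sg_all h G hG)

end Pool.Agent.Results.MP_f56020_al.SymAlt
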